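import Mathlib
import Pool.Agent.N626.Gm

/-!
# Entire curves given by linear difference equations

Let `X` be the complement of the hypersurface `Q = 0` in a complex projective algebraic set (an
arbitrary projective algebraic set for `Q = 1`). We consider the entire curves in `X` whose
homogeneous coordinates `f_j` satisfy nontrivial linear difference equations
`∑ a_k(z) f_j(z + k) = 0`. The coefficients `a_k` are polynomials in `z`, or, more generally,
polynomials in `z` whose coefficients are `1`-periodic entire functions. There is no restriction on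
the growth of `f`. The Zariski closure of the union of all these curves which are not algebraic over
the field generated by `z` and the `1`-periodic functions is equal to the Zariski closure of the
union of the images of the nonconstant morphisms from the multiplicative group to `X`. If `X` is a
variety of logarithmic general type, then a Zariski-dense curve of this kind is algebraic over the
field generated by `z` and the `1`-periodic functions.
-/

set_option autoImplicit false

namespace Pool.Agent.Results.MP_160ed4_ag.DifferenceEquationCurves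

open MvPolynomial
open Pool.Agent.TH143.GT (FunField)
open Pool.Agent.W602.GT (IsForm LogGeneralType)
open Pool.Agent.W603.GR (OffQ)
open Pool.Agent.N626

variable {N : ℕ}

/-- `f` is an entire curve in the complement of `Q = 0` in the projective algebraic set of `I`, given
by homogeneous coordinates in the algebra `A` of entire functions. Each coordinate satisfies a
nontrivial linear difference equation, and `Q` along the curve satisfies a difference equation of
order one, with coefficients which are polynomials in `z` with `1`-periodic coefficients in `A`. The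
last condition is empty if `Q` is a constant. -/
structure DiffCurve (A : Subalgebra ℂ (ℂ → ℂ)) (I : Ideal (MvPolynomial (Fin (N + 1)) ℂ))
    (Q : MvPolynomial (Fin (N + 1)) ℂ) (f : ℂ → Fin (N + 1) → ℂ) : Prop where
  mem : ∀ j, (fun z => f z j) ∈ A
  ne : ∀ z, f z ≠ 0
  on : ∀ G ∈ I, IsForm G → ∀ z, eval (f z) G = 0
  off : ∀ z, eval (f z) Q ≠ 0
  eq : ∀ j, DiffEq A fun z => f z j
  bd : DiffOne A fun z => eval (f z) Q

/-- All quotients of the homogeneous coordinates of `f` are algebraic over the field generated by `z`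
and the `1`-periodic quotients of functions in `A`. -/
def PerAlg (A : Subalgebra ℂ (ℂ → ℂ)) (f : ℂ → Fin (N + 1) → ℂ) : Prop :=
  ∀ i l, AlgPer A (fun z => f z i) fun z => f z l

/-- The form `G` vanishes on the images of all nonconstant morphisms from the multiplicative group to
the complement of `Q = 0` in the algebraic set of `I`. -/
def VanishGm (I : Ideal (MvPolynomial (Fin (N + 1)) ℂ)) (Q G : MvPolynomial (Fin (N + 1)) ℂ) :
    Prop :=
  ∀ p, GmC I Q p → ∀ t, t ≠ 0 → eval (fun j => (p j).eval t) G = 0

theorem cover {A : Subalgebra ℂ (ℂ → ℂ)} (h : ShiftAlg A)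
    {I : Ideal (MvPolynomial (Fin (N + 1)) ℂ)} {Q : MvPolynomial (Fin (N + 1)) ℂ} {q : ℕ}
    (hQ : Q.IsHomogeneous q) {f : ℂ → Fin (N + 1) → ℂ} (hf : DiffCurve A I Q f)
    (hP : ¬ PerAlg A f) :
    ∃ (M : Type) (_ : Field M) (_ : Algebra ℂ M) (W : Fin (N + 1) → Polynomial M),
      (∀ G : MvPolynomial (Fin (N + 1)) ℂ, IsForm G →
        (aeval W G = 0 ↔ ∀ z, eval (f z) G = 0)) ∧
      (∃ (c : M) (k : ℕ), c ≠ 0 ∧ aeval W Q = Polynomial.C c * Polynomial.X ^ k) ∧
      ∃ j k, Polynomial.derivative (W j) * W k ≠ W j * Polynomial.derivative (W k) := by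
  unfold PerAlg at hP
  push Not at hP
  obtain ⟨i, l, hil⟩ := hP
  have hl : ∃ z, f z l ≠ 0 := by
    by_contra hcon
    push Not at hcon
    exact hil (algPer_zero (funext hcon))
  exact curve_main h hf.mem hQ hf.eq ⟨0, hf.off 0⟩ hf.bd hl hil

theorem expCurve {A : Subalgebra ℂ (ℂ → ℂ)} (h : ShiftAlg A) (hexp : Complex.exp ∈ A)
    {I : Ideal (MvPolynomial (Fin (N + 1)) ℂ)} {Q : MvPolynomial (Fin (N + 1)) ℂ}
    {p : Fin (N + 1) → Polynomial ℂ} (hp : GmC I Q p) :
    DiffCurve A I Q (fun z j => (p j).eval (Complex.exp z)) ∧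
      ¬ PerAlg A fun z j => (p j).eval (Complex.exp z) := by
  have he := Complex.exp_ne_zero
  obtain ⟨c, k, hc, hck⟩ := monomial_of (P := aeval p Q) fun t ht => by
    rw [eval_aeval]
    exact hp.off t ht
  have hQ : ∀ z, eval (fun j => (p j).eval (Complex.exp z)) Q = c * Complex.exp z ^ k := by
    intro z
    rw [← eval_aeval, hck, Polynomial.eval_mul, Polynomial.eval_C, Polynomial.eval_pow,
      Polynomial.eval_X]
  refine ⟨⟨fun j => ?_, fun z => hp.ne _ (he z), fun G hG hGf z => hp.on G hG hGf _ (he z),
    fun z => hp.off _ (he z), fun j => diffEq_exp A (p j), ?_⟩, ?_⟩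
  · have h1 : (fun z => (p j).eval (Complex.exp z)) =
        ((Polynomial.aeval (⟨Complex.exp, hexp⟩ : A) (p j) : A) : ℂ → ℂ) := by
      funext z
      have h2 := Polynomial.aeval_algHom_apply
        ((Pi.evalAlgHom ℂ (fun _ : ℂ => ℂ) z).comp A.val) (⟨Complex.exp, hexp⟩ : A) (p j)
      change Polynomial.aeval (Complex.exp z) (p j) = _ at h2
      rw [Polynomial.coe_aeval_eq_eval] at h2
      exact h2
    rw [h1]
    exact Subtype.prop _
  · refine ⟨0, fun _ _ => 1, fun _ _ => Complex.exp 1 ^ k, fun _ => ⟨A.one_mem, fun _ => rfl⟩,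
      fun _ => ⟨A.algebraMap_mem (Complex.exp 1 ^ k), fun _ => rfl⟩, ⟨0, le_rfl, fun h0 => ?_⟩,
      fun z => ?_⟩
    · exact one_ne_zero (congrFun h0 0)
    · beta_reduce
      rw [hQ, hQ, Complex.exp_add, mul_pow]
      simp only [zero_add, Finset.sum_range_one, pow_zero, mul_one]
      ring
  · intro hP
    obtain ⟨t, u, j, k, -, -, hne⟩ := hp.nonconst
    exact hne (not_algPer h (hP j k) t u)

/-- The functions of exponential type. -/
def ExpType : Subalgebra ℂ (ℂ → ℂ) where
  carrier := {f | Differentiable ℂ f ∧ ∃ C : ℝ, ∀ z, ‖f z‖ ≤ C * Real.exp (C * ‖z‖)}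
  mul_mem' := by
    rintro f g ⟨hf, C, hC⟩ ⟨hg, D, hD⟩
    have hC0 : 0 ≤ C := by
      have := (norm_nonneg _).trans (hC 0)
      simpa using this
    have hD0 : 0 ≤ D := by
      have := (norm_nonneg _).trans (hD 0)
      simpa using this
    refine ⟨hf.mul hg, C * D + C + D, fun z => ?_⟩
    rw [Pi.mul_apply, norm_mul]
    have h1 : ‖f z‖ * ‖g z‖ ≤ (C * Real.exp (C * ‖z‖)) * (D * Real.exp (D * ‖z‖)) :=
      mul_le_mul (hC z) (hD z) (norm_nonneg _) (by positivity)
    have h2 : (C * Real.exp (C * ‖z‖)) * (D * Real.exp (D * ‖z‖)) =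
        C * D * Real.exp ((C + D) * ‖z‖) := by
      rw [add_mul, Real.exp_add]
      ring
    rw [h2] at h1
    refine h1.trans (mul_le_mul (by nlinarith) (Real.exp_le_exp.2 ?_) (Real.exp_pos _).le
      (by positivity))
    apply mul_le_mul_of_nonneg_right _ (norm_nonneg z)
    nlinarith [mul_nonneg hC0 hD0]
  add_mem' := by
    rintro f g ⟨hf, C, hC⟩ ⟨hg, D, hD⟩
    have hC0 : 0 ≤ C := by
      have := (norm_nonneg _).trans (hC 0)
      simpa using this
    have hD0 : 0 ≤ D := by
      have := (norm_nonneg _).trans (hD 0)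
      simpa using this
    refine ⟨hf.add hg, C + D, fun z => ?_⟩
    rw [Pi.add_apply, add_mul]
    refine (norm_add_le _ _).trans (add_le_add ((hC z).trans ?_) ((hD z).trans ?_))
    · exact mul_le_mul_of_nonneg_left (Real.exp_le_exp.2 (mul_le_mul_of_nonneg_right
        (by linarith) (norm_nonneg z))) hC0
    · exact mul_le_mul_of_nonneg_left (Real.exp_le_exp.2 (mul_le_mul_of_nonneg_right
        (by linarith) (norm_nonneg z))) hD0
  algebraMap_mem' c := by
    refine ⟨differentiable_const c, ‖c‖, fun z => ?_⟩
    have h1 : (1 : ℝ) ≤ Real.exp (‖c‖ * ‖z‖) := Real.one_le_exp (by positivity)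
    have h2 := mul_le_mul_of_nonneg_left h1 (norm_nonneg c)
    rw [mul_one] at h2
    exact h2

theorem expType_shiftAlg : ShiftAlg ExpType where
  diff _ h := h.1
  id := by
    refine ⟨differentiable_id, 1, fun z => ?_⟩
    rw [one_mul, one_mul]
    have := Real.add_one_le_exp ‖z‖
    linarith
  shift := by
    rintro f ⟨hf, C, hC⟩
    have hC0 : 0 ≤ C := by
      have := (norm_nonneg _).trans (hC 0)
      simpa using this
    refine ⟨hf.comp (differentiable_id.add_const 1), C * Real.exp C + C, fun z => ?_⟩
    have h1 : ‖z + 1‖ ≤ ‖z‖ + 1 := (norm_add_le _ _).trans (by simp)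
    refine (hC (z + 1)).trans ?_
    have h2 : C * Real.exp (C * ‖z + 1‖) ≤ C * Real.exp C * Real.exp (C * ‖z‖) := by
      rw [mul_assoc, ← Real.exp_add]
      refine mul_le_mul_of_nonneg_left (Real.exp_le_exp.2 ?_) hC0
      nlinarith
    refine h2.trans (mul_le_mul (by linarith) (Real.exp_le_exp.2 ?_) (Real.exp_pos _).le
      (by positivity))
    apply mul_le_mul_of_nonneg_right _ (norm_nonneg z)
    have := mul_nonneg hC0 (Real.exp_pos C).le
    linarith

theorem exp_mem_expType : Complex.exp ∈ ExpType := by
  refine ⟨Complex.differentiable_exp, 1, fun z => ?_⟩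
  rw [one_mul, one_mul, Complex.norm_exp]
  exact Real.exp_le_exp.2 (Complex.re_le_norm z)

/-- Let `X` be the complement of the hypersurface `Q = 0` in the projective algebraic set of the ideal
`I`; let `A` be an algebra of entire functions which contains `z` and is closed under the substitution
`z ↦ z + 1`, for instance, by (4), the algebra of all entire functions, or the algebra of the entire
functions of exponential type.

(1) Let `f` be an entire curve in `X` whose coordinates are in `A` and satisfy linear difference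
equations (`DiffCurve`). Then `f` is algebraic over the field generated by `z` and the `1`-periodic
quotients of functions in `A`, or `f` is contained in the Zariski closure of the union of the images
of the nonconstant morphisms from the multiplicative group to `X`.

(2) If `A` contains the exponential function, then the Zariski closure of the union of the curves of
this kind which are not algebraic over this field is equal to the Zariski closure of the union of the
images of the nonconstant morphisms from the multiplicative group to `X`.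

(3) Let `X` be a variety with the ideal `p`, the function field `K`, the generic point `y` and the
dimension `w`. If `X` is of logarithmic general type, then every Zariski-dense curve of this kind is
algebraic over this field. -/
theorem result (Q : MvPolynomial (Fin (N + 1)) ℂ) {q : ℕ} (hQ : Q.IsHomogeneous q) :
    (∀ (A : Subalgebra ℂ (ℂ → ℂ)), ShiftAlg A →
      ∀ (I : Ideal (MvPolynomial (Fin (N + 1)) ℂ)) (f : ℂ → Fin (N + 1) → ℂ),
        DiffCurve A I Q f → PerAlg A f ∨
          ∀ G : MvPolynomial (Fin (N + 1)) ℂ, IsForm G → VanishGm I Q G →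
            ∀ z, eval (f z) G = 0) ∧
    (∀ (A : Subalgebra ℂ (ℂ → ℂ)), ShiftAlg A → Complex.exp ∈ A →
      ∀ (I : Ideal (MvPolynomial (Fin (N + 1)) ℂ)) (G : MvPolynomial (Fin (N + 1)) ℂ), IsForm G →
        ((∀ f, DiffCurve A I Q f → ¬ PerAlg A f → ∀ z, eval (f z) G = 0) ↔ VanishGm I Q G)) ∧
    (∀ (A : Subalgebra ℂ (ℂ → ℂ)), ShiftAlg A →
      ∀ (p : Ideal (MvPolynomial (Fin (N + 1)) ℂ)) (K : Type) [Field K] [Algebra ℂ K] (w : ℕ)
        (y : Fin (N + 1) → K), FunField p Q K w y → LogGeneralType ℂ K w (OffQ Q q y) →
        ∀ f, DiffCurve A p Q f →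
          (∀ G : MvPolynomial (Fin (N + 1)) ℂ, IsForm G → (∀ z, eval (f z) G = 0) → G ∈ p) →
            PerAlg A f) ∧
    (ShiftAlg Ent ∧ Complex.exp ∈ Ent) ∧ (ShiftAlg ExpType ∧ Complex.exp ∈ ExpType) := by
  have h1 : ∀ (A : Subalgebra ℂ (ℂ → ℂ)), ShiftAlg A →
      ∀ (I : Ideal (MvPolynomial (Fin (N + 1)) ℂ)) (f : ℂ → Fin (N + 1) → ℂ),
        DiffCurve A I Q f → PerAlg A f ∨
          ∀ G : MvPolynomial (Fin (N + 1)) ℂ, IsForm G → VanishGm I Q G →
            ∀ z, eval (f z) G = 0 := by
    intro A h I f hf
    by_cases hP : PerAlg A f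
    · exact Or.inl hP
    · right
      obtain ⟨M, i1, i2, W, e1, e2, e3⟩ := cover h hQ hf hP
      intro G hG hgm
      exact (e1 G hG).1 (vanish_of_gm hQ hG hgm M W
        (fun G' hG' hf' => (e1 G' hf').2 fun z => hf.on G' hG' hf' z) e2 e3)
  refine ⟨h1, fun A h hexp I G hG => ⟨fun hall p hp t ht => ?_, fun hgm f hf hP z => ?_⟩, ?_,
    ⟨ent_shiftAlg, Complex.differentiable_exp⟩, expType_shiftAlg, exp_mem_expType⟩
  · obtain ⟨e1, e2⟩ := expCurve h hexp hp
    have e3 := hall _ e1 e2 (Complex.log t)
    simp only [Complex.exp_log ht] at e3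
    exact e3
  · rcases h1 A h I f hf with h2 | h2
    · exact absurd h2 hP
    · exact h2 G hG hgm z
  · intro A h p K _ _ w y hy hL f hf hd
    by_contra hP
    obtain ⟨M, i1, i2, W, e1, e2, e3⟩ := cover h hQ hf hP
    refine Pool.Agent.Y405.IL.t_LGT N p Q q K w y hQ hy M W (fun G hG => ?_) e2 e3 hL
    rw [e1 G hG]
    constructor
    · intro h0 z
      exact hf.on G (hy.mem G hG h0) hG z
    · intro h0
      exact hy.sub.mem G (hd G hG h0)

end Pool.Agent.Results.MP_160ed4_ag.DifferenceEquationCurves
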